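import Pool.Agent.H65.AP.Targets

/-!
# MP_0ee698_an, row PSH: sets of positive reach have push maps
-/

set_option autoImplicit false

open MeasureTheory Set Filter Topology Metric
open scoped ENNReal NNReal ContDiff RealInnerProductSpace

namespace Pool.Agent.H46.AP

open Pool.Agent.H94.IC Pool.Agent.H94.AC Pool.Agent.H92.CK Pool.Agent.H65.AP

theorem reach_le {S : Set E} {r s : ℝ} (hR : HasReach r S) (hs : 0 < s) (hsr : s ≤ r) (x p : E)
    (hp : p ∈ S) (h0 : 0 < dist x p) (hlt : dist x p < r) (hd : dist x p = infDist x S) :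
    infDist (p + (s / dist x p) • (x - p)) S = s := by
  have hz := hR x p hp h0 hlt hd
  have hn : ‖x - p‖ = dist x p := (dist_eq_norm x p).symm
  have hd0 : dist x p ≠ 0 := h0.ne'
  refine le_antisymm ?_ ?_
  · refine (infDist_le_dist_of_mem hp).trans (le_of_eq ?_)
    rw [dist_eq_norm, add_sub_cancel_left, norm_smul, hn, Real.norm_eq_abs,
      abs_of_pos (div_pos hs h0)]
    field_simp
  · have h1 := infDist_le_infDist_add_dist (s := S) (x := p + (r / dist x p) • (x - p))
      (y := p + (s / dist x p) • (x - p))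
    have h2 : dist (p + (r / dist x p) • (x - p)) (p + (s / dist x p) • (x - p)) = r - s := by
      rw [dist_eq_norm, add_sub_add_left_eq_sub, ← sub_smul, norm_smul, hn, Real.norm_eq_abs,
        ← sub_div, abs_of_nonneg (div_nonneg (by linarith) h0.le)]
      field_simp
    rw [hz, h2] at h1
    linarith

theorem vec_eq {F : Type*} [NormedAddCommGroup F] [InnerProductSpace ℝ F] {a b : F} {δ l : ℝ}
    (hδ : 0 < δ) (hl0 : 0 < l) (hna : ‖a‖ = δ) (hnb : ‖b‖ = δ)
    (h2 : (l + 1) * δ ≤ ‖l • a + b‖) : a = b := by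
  have h0' : 0 ≤ (l + 1) * δ := by positivity
  have h4 : ((l + 1) * δ) ^ 2 ≤ ‖l • a + b‖ ^ 2 := pow_le_pow_left₀ h0' h2 2
  have h5 : ‖l • a + b‖ ^ 2 = l ^ 2 * δ ^ 2 + 2 * (l * inner ℝ a b) + δ ^ 2 := by
    rw [norm_add_sq_real, norm_smul, real_inner_smul_left, hna, hnb, mul_pow, Real.norm_eq_abs,
      sq_abs]
  have h6 : δ ^ 2 ≤ inner ℝ a b := by
    rw [h5] at h4
    by_contra hc
    push Not at hc
    have h9 : 0 < l * (δ ^ 2 - inner ℝ a b) := mul_pos hl0 (sub_pos.2 hc)
    nlinarith
  have h7 : ‖a - b‖ ^ 2 ≤ 0 := by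
    rw [norm_sub_sq_real, hna, hnb]
    linarith
  have h8 : ‖a - b‖ = 0 := by
    have := sq_nonneg ‖a - b‖
    exact (pow_eq_zero_iff (two_ne_zero)).1 (le_antisymm h7 this)
  exact sub_eq_zero.1 (norm_eq_zero.1 h8)

theorem uniq {S : Set E} {r : ℝ} (hR : HasReach r S) {x p q : E} (hp : p ∈ S) (hq : q ∈ S)
    (h0 : 0 < infDist x S) (h1 : infDist x S < r) (hxp : infDist x S = dist x p)
    (hxq : infDist x S = dist x q) : q = p := by
  have hz := hR x p hp (hxp ▸ h0) (hxp ▸ h1) hxp.symm
  rw [← hxp] at hz
  have h2 : infDist (p + (r / infDist x S) • (x - p)) S ≤ dist (p + (r / infDist x S) • (x - p)) q :=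
    infDist_le_dist_of_mem hq
  rw [hz] at h2
  have hna : ‖x - p‖ = infDist x S := by rw [← dist_eq_norm, hxp]
  have hnb : ‖x - q‖ = infDist x S := by rw [← dist_eq_norm, hxq]
  have hl0 : 0 < r / infDist x S - 1 := by
    have : 1 < r / infDist x S := (one_lt_div h0).2 h1
    linarith
  have h3 : p + (r / infDist x S) • (x - p) - q = (r / infDist x S - 1) • (x - p) + (x - q) := by
    rw [sub_smul, one_smul]
    abel
  rw [dist_eq_norm, h3] at h2
  have hr : (r / infDist x S - 1 + 1) * infDist x S = r := by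
    rw [sub_add_cancel]
    exact div_mul_cancel₀ r h0.ne'
  have h4 := vec_eq h0 hl0 hna hnb (hr.le.trans h2)
  exact (sub_right_injective (b := x) h4).symm

section

variable {S : Set E} (hS : IsCompact S) (hne : S.Nonempty)

/-- a nearest point -/
noncomputable def np (x : E) : E := Classical.choose (hS.exists_infDist_eq_dist hne x)

theorem np_mem (x : E) : np hS hne x ∈ S :=
  (Classical.choose_spec (hS.exists_infDist_eq_dist hne x)).1

theorem np_dist (x : E) : infDist x S = dist x (np hS hne x) :=
  (Classical.choose_spec (hS.exists_infDist_eq_dist hne x)).2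

theorem np_cont {r : ℝ} (hR : HasReach r S) (x : E) (h0 : 0 < infDist x S)
    (h1 : infDist x S < r) : ContinuousAt (np hS hne) x := by
  refine hS.tendsto_nhds_of_unique_mapClusterPt
    (Filter.Eventually.of_forall fun y => np_mem hS hne y) fun q hq hcl => ?_
  refine uniq hR (np_mem hS hne x) hq h0 h1 (np_dist hS hne x) (le_antisymm
    (infDist_le_dist_of_mem hq) ?_)
  refine le_of_forall_pos_le_add fun ε hε => ?_
  have h2 : ∃ᶠ y in 𝓝 x, np hS hne y ∈ ball q (ε / 3) :=
    (mapClusterPt_iff_frequently.1 hcl) _ (ball_mem_nhds q (by positivity))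
  have h3 : ∀ᶠ y in 𝓝 x, dist y x < ε / 3 := ball_mem_nhds x (by positivity)
  obtain ⟨y, hy1, hy2⟩ := (h2.and_eventually h3).exists
  have h4 : dist (np hS hne y) q < ε / 3 := hy1
  have h5 : infDist y S ≤ infDist x S + dist y x := infDist_le_infDist_add_dist
  have h6 := np_dist hS hne y
  calc dist x q ≤ dist x y + dist y (np hS hne y) + dist (np hS hne y) q := dist_triangle4 _ _ _ _
    _ ≤ infDist x S + ε := by
      rw [dist_comm x y, ← h6]
      linarith

end

theorem pf_PSH : T_PSH := by
  intro S r r' hS hne hr' hrr hR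
  set d : E → ℝ := fun x => infDist x S with hd
  have hdc : Continuous d := continuous_infDist_pt S
  have hdpos : ∀ x, x ∉ S → 0 < d x := fun x hx =>
    (hS.isClosed.notMem_iff_infDist_pos hne).1 hx
  set H : ℝ → E → E := fun t x => x + (t * max 0 (r' - d x) / d x) • (x - np hS hne x) with hH
  have hfar : ∀ t x, r' ≤ d x → H t x = x := by
    intro t x hx
    simp only [hH]
    rw [max_eq_left (by linarith)]
    simp
  have hin : ∀ t x, x ∉ S → d x < r' → 0 ≤ t → infDist (H t x) S = d x + t * (r' - d x) ∨ 1 < t := by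
    intro t x hx hxr ht
    by_cases ht1 : 1 < t
    · exact Or.inr ht1
    refine Or.inl ?_
    push Not at ht1
    have h0 := hdpos x hx
    have hn := np_dist hS hne x
    have hdx : d x = dist x (np hS hne x) := hn
    have h1 : H t x = np hS hne x +
        ((d x + t * (r' - d x)) / dist x (np hS hne x)) • (x - np hS hne x) := by
      simp only [hH]
      rw [max_eq_right (by linarith), ← hdx, add_div, div_self h0.ne', add_smul, one_smul]
      abel
    rw [h1]
    refine reach_le hR ?_ ?_ x _ (np_mem hS hne x) (hdx ▸ h0) (by rw [← hdx]; linarith) hn.symm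
    · have : 0 ≤ t * (r' - d x) := mul_nonneg ht (by linarith)
      linarith
    · have : t * (r' - d x) ≤ 1 * (r' - d x) := mul_le_mul_of_nonneg_right ht1 (by linarith)
      linarith
  refine ⟨H, ?_, ?_, ?_, ?_, ?_⟩
  · rintro ⟨t, x⟩ ⟨-, hx⟩
    have h0 := hdpos x hx
    rcases lt_or_ge (d x) r with h1 | h1
    · have hc : ContinuousAt (fun q : ℝ × E => H q.1 q.2) (t, x) := by
        have hnp : ContinuousAt (fun q : ℝ × E => np hS hne q.2) (t, x) :=
          ContinuousAt.comp (g := np hS hne) (np_cont hS hne hR x h0 h1) continuousAt_snd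
        have hdq : ContinuousAt (fun q : ℝ × E => d q.2) (t, x) :=
          (hdc.comp continuous_snd).continuousAt
        have hmx : ContinuousAt (fun q : ℝ × E => max 0 (r' - d q.2)) (t, x) :=
          (continuous_const.max (continuous_const.sub (hdc.comp continuous_snd))).continuousAt
        exact continuousAt_snd.add (((continuousAt_fst.mul hmx).div hdq h0.ne').smul
          (continuousAt_snd.sub hnp))
      exact hc.continuousWithinAt
    · have h2 : ∀ᶠ q : ℝ × E in 𝓝 (t, x), r' < d q.2 :=
        (hdc.comp continuous_snd).continuousAt.eventually (lt_mem_nhds (by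
          show r' < d x
          linarith))
      have h3 : (fun q : ℝ × E => H q.1 q.2) =ᶠ[𝓝 (t, x)] fun q => q.2 :=
        h2.mono fun q hq => hfar q.1 q.2 hq.le
      exact (continuousAt_snd.congr h3.symm).continuousWithinAt
  · intro x _
    simp [hH]
  · intro t ht x hx
    rcases lt_or_ge (d x) r' with h1 | h1
    · rcases hin t x hx h1 ht.1 with h2 | h2
      · rw [hS.isClosed.notMem_iff_infDist_pos hne, h2]
        have h3 := hdpos x hx
        have h4 : 0 ≤ t * (r' - d x) := mul_nonneg ht.1 (by linarith)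
        linarith
      · exact absurd ht.2 (not_le.2 h2)
    · rw [hfar t x h1]
      exact hx
  · intro x hx
    rcases lt_or_ge (d x) r' with h1 | h1
    · rcases hin 1 x hx h1 zero_le_one with h2 | h2
      · rw [h2]
        linarith
      · exact absurd h2 (lt_irrefl _)
    · rw [hfar 1 x h1]
      exact h1
  · obtain ⟨M, hM⟩ := hS.isBounded.subset_closedBall (0 : E)
    refine ⟨M + r', fun x hx t _ => hfar t x ?_⟩
    have hn := np_dist hS hne x
    have hm := hM (np_mem hS hne x)
    rw [mem_closedBall, dist_zero_right] at hm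
    show r' ≤ infDist x S
    rw [hn, dist_eq_norm]
    have h1 := norm_sub_norm_le x (np hS hne x)
    linarith

end Pool.Agent.H46.AP
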